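import Pool.Agent.Q6.TY.All

/-!
# MP_fbd27d_al : coordinate bound for finitely solvable sum-product systems

Every system of equations `x i = 1`, `x i + x j = x k`, `x i * x j = x k` in `n` unknowns which has
only finitely many complex solutions has all its solutions in the polydisc of radius
`2 ^ (2 ^ (n - 1))`.
-/

namespace Pool.Agent.Results.MP_fbd27d_al.SumProductBound

/-- The set of the complex solutions of the system consisting of the equations `x i = 1` for
`i ∈ A`, `x i + x j = x k` for `(i, j, k) ∈ B` and `x i * x j = x k` for `(i, j, k) ∈ C`. -/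
def Solutions {n : ℕ} (A : Set (Fin n)) (B C : Set (Fin n × Fin n × Fin n)) :
    Set (Fin n → ℂ) :=
  {x | (∀ i ∈ A, x i = 1) ∧ (∀ e ∈ B, x e.1 + x e.2.1 = x e.2.2) ∧
    ∀ e ∈ C, x e.1 * x e.2.1 = x e.2.2}

/-- If a system has only finitely many complex solutions, then all of them satisfy
`|x i| ≤ 2 ^ (2 ^ (n - 1))`. -/
theorem result : ∀ n : ℕ, 1 ≤ n → ∀ (A : Set (Fin n)) (B C : Set (Fin n × Fin n × Fin n)),
    (Solutions A B C).Finite → ∀ x ∈ Solutions A B C, ∀ i, ‖x i‖ ≤ 2 ^ (2 ^ (n - 1)) :=
  fun n _ A B C h x hx i => Pool.Agent.Q6.TY.bound_n' n A B C h x hx i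

end Pool.Agent.Results.MP_fbd27d_al.SumProductBound
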